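import Pool.Agent.Q272.HA.Tri
import Pool.Agent.Q272.LP.AbcFull
import Pool.Agent.TH905.HS.Fin1

/-!
# Hyperelliptic curves over `ℚ` with rational Weierstrass points and the abc inequality
-/

set_option autoImplicit false

namespace Pool.Agent.Q272.HA

open Polynomial Finset NumberField IsDedekindDomain WithZero Pool.Agent.W318 Height
open Pool.Agent.Q272.TR (rad rad_pos AbcExp)
open Pool.Agent.TH905.HS (root pol log_disc_le equal_of_good pol_isHyp)

/-! ### heights -/

theorem height_le_sum {K : Type} [Field K] [NumberField K] {n : ℕ} (hn : 1 ≤ n)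
    (x : Fin (n + 1) → K) (h0 : x 0 ≠ 0) :
    logHeight x ≤ ∑ i : Fin n, logHeight ![x 0, x i.succ] := by
  have hne : ∀ i : Fin n, (![x 0, x i.succ] : Fin 2 → K) ≠ 0 := by
    intro i h
    exact h0 (by simpa using congrFun h 0)
  rw [← logHeight_fun_prod_eq (x := fun i : Fin n => ![x 0, x i.succ]) hne]
  -- the vector `x_0 ^ (n - 1) • x` is a part of the table
  let f : Fin (n + 1) → (Fin n → Fin 2) := Fin.cons (fun _ => 0) fun i => Pi.single i 1
  have h1 : (fun j => (fun I : Fin n → Fin 2 => ∏ i, ![x 0, x i.succ] (I i)) (f j)) =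
      x 0 ^ (n - 1) • x := by
    funext j
    refine Fin.cases ?_ (fun k => ?_) j
    · simp only [f, Fin.cons_zero, Matrix.cons_val_zero, prod_const, card_univ, Fintype.card_fin,
        Pi.smul_apply, smul_eq_mul]
      rw [← pow_succ]
      congr 1
      omega
    · simp only [f, Fin.cons_succ, Pi.smul_apply, smul_eq_mul]
      rw [← Finset.mul_prod_erase univ _ (mem_univ k)]
      have e1 : ∀ i ∈ univ.erase k, (![x 0, x (Fin.succ i)] : Fin 2 → K)
          ((Pi.single k 1 : Fin n → Fin 2) i) = x 0 := by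
        intro i hi
        rw [Pi.single_eq_of_ne (mem_erase.mp hi).1]
        rfl
      rw [prod_congr rfl e1, Pi.single_eq_same, prod_const, card_erase_of_mem (mem_univ k),
        card_univ, Fintype.card_fin]
      simp only [Matrix.cons_val_one, Matrix.cons_val_zero]
      ring
  have h2 := logHeight_comp_le f (fun I : Fin n → Fin 2 => ∏ i, ![x 0, x i.succ] (I i))
  have h3 : ((fun I : Fin n → Fin 2 => ∏ i, ![x 0, x i.succ] (I i)) ∘ f) = x 0 ^ (n - 1) • x := h1
  rw [h3, logHeight_smul_eq_logHeight _ (pow_ne_zero _ h0)] at h2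
  exact h2

section val

variable {K : Type} [Field K] [NumberField K]

theorem val_natAbs (v : HeightOneSpectrum (𝓞 K)) (A : ℤ) :
    v.valuation K (A : K) = v.valuation K ((A.natAbs : ℕ) : K) := by
  rcases Int.natAbs_eq A with h | h
  · conv_lhs => rw [h]
    rw [Int.cast_natCast]
  · conv_lhs => rw [h]
    rw [Int.cast_neg, Int.cast_natCast, Valuation.map_neg]

end val

/-- the height of a ratio of two differences of roots -/
theorem pair_height {n g : ℕ} (hn : n + 1 = 2 * g) (hg : 2 ≤ g) {d : ℚ} (hd : d ≠ 0)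
    {x : Fin (n + 1) → ℚ} (hx : Function.Injective (root x)) {l C : ℝ} (hl : 0 ≤ l)
    (h : ∀ a b c : ℕ, 0 < a → 0 < b → a + b = c → Nat.Coprime a b →
      (c : ℝ) ≤ C * (rad (a * b * c) : ℝ) ^ l) (i : Fin n) :
    logHeight ![x 0, x i.succ] ≤ Real.log (|C| + 1) +
      l * (Real.log 2 + Real.log (badNorm g (pol d (root x)))) := by
  have hx0 : x 0 ≠ 0 := by
    intro h0
    have h1 : root x (Fin.succ 0) = root x 0 := by simpa [root] using h0
    exact absurd (hx h1) (Fin.succ_ne_zero _)
  have hxi : x i.succ ≠ 0 := by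
    intro h0
    have h1 : root x (Fin.succ i.succ) = root x 0 := by simpa [root] using h0
    exact absurd (hx h1) (Fin.succ_ne_zero _)
  have hne : x 0 ≠ x i.succ := by
    intro h0
    have h1 : root x (Fin.succ 0) = root x (Fin.succ i.succ) := by simpa [root] using h0
    exact absurd (Fin.succ_injective _ (hx h1)) (Fin.succ_ne_zero _).symm
  set q : ℚ := x 0 / x i.succ with hq
  have hq0 : q ≠ 0 := div_ne_zero hx0 hxi
  set A : ℤ := q.num with hA
  set B : ℤ := (q.den : ℤ) with hB
  have hA0 : A ≠ 0 := Rat.num_ne_zero.mpr hq0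
  have hB0 : B ≠ 0 := by
    rw [hB]
    exact_mod_cast q.den_nz
  have hBQ : (B : ℚ) ≠ 0 := by exact_mod_cast hB0
  have hqAB : q = A / B := by
    rw [hA, hB]
    push_cast
    exact (Rat.num_div_den q).symm
  have hAB : A - B ≠ 0 := by
    intro h0
    have h1 : A = B := by linarith
    apply hne
    have h2 : q = 1 := by rw [hqAB, h1, div_self hBQ]
    rw [hq, div_eq_one_iff_eq hxi] at h2
    exact h2
  have hco : IsCoprime A B := by
    rw [Int.isCoprime_iff_gcd_eq_one]
    exact q.reduced
  set t : ℚ := x i.succ / B with ht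
  have ht0 : t ≠ 0 := div_ne_zero hxi hBQ
  have e0 : x 0 = t * A := by
    have : x 0 = q * x i.succ := by rw [hq, div_mul_cancel₀ _ hxi]
    rw [this, hqAB, ht]
    ring
  have ei : x i.succ = t * B := by
    rw [ht, div_mul_cancel₀ _ hBQ]
  -- the height
  have hh : logHeight ![x 0, x i.succ] = Real.log ((max A.natAbs B.natAbs : ℕ) : ℝ) := by
    rw [← logHeight₁_div_eq_logHeight, ← hq, Rat.logHeight₁_eq_log_max]
    rfl
  -- the radical
  set N := A.natAbs * (-B).natAbs * (A + -B).natAbs with hN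
  have habc := Pool.Agent.Q272.LP.abc_int (C := C) (l := l) h (hco.neg_right) hA0
    (neg_ne_zero.mpr hB0) (by rwa [← sub_eq_add_neg])
  rw [← hN, Int.natAbs_neg] at habc
  have hF : IsHyp g (pol d (root x)) := pol_isHyp (by omega) hd hx
  have hw : radP 2 N ≤ badNorm g (pol d (root x)) := by
    have h1 := bad_lower hF (radP_sq 2 N) (fun p hp hpd => by
      have := (dvd_radP hp hpd).2
      rw [Rat.numberField_discr]
      norm_num
      omega) (fun v hv => by
      obtain ⟨p, hp, hpd, hpv⟩ := Pool.Agent.Y678.SZ.exists_prime_of_val v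
        (radP_sq 2 N).ne_zero hv
      obtain ⟨hpn, hp2⟩ := dvd_radP hp hpd
      intro h0
      have hv2 : v.valuation ℚ (2 : ℚ) = 1 := by
        have hc : Nat.Coprime p 2 := (Nat.coprime_primes hp Nat.prime_two).mpr (by omega)
        rcases Pool.Agent.Y678.SZ.val_one_or (K := ℚ) hc v with h6 | h6
        · exact absurd h6 hpv.ne
        · exact_mod_cast h6
      have heq := equal_of_good hg (by omega : n + 2 = 2 * g + 1) hd hx v hv2 h0
      have s1 : root x (Fin.succ 0) - root x 0 = t * A := by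
        rw [← e0]
        simp [root]
      have s2 : root x (Fin.succ i.succ) - root x 0 = t * B := by
        rw [← ei]
        simp [root]
      have s3 : root x (Fin.succ 0) - root x (Fin.succ i.succ) = t * ((A + -B : ℤ) : ℚ) := by
        have : root x (Fin.succ 0) - root x (Fin.succ i.succ) = x 0 - x i.succ := by
          simp [root]
        rw [this, e0, ei]
        push_cast
        ring
      have n1 : (Fin.succ 0 : Fin (n + 2)) ≠ 0 := Fin.succ_ne_zero _
      have n2 : (Fin.succ i.succ : Fin (n + 2)) ≠ 0 := Fin.succ_ne_zero _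
      have n3 : (Fin.succ 0 : Fin (n + 2)) ≠ Fin.succ i.succ := by
        intro hc
        exact absurd (Fin.succ_injective _ hc) (Fin.succ_ne_zero _).symm
      have v12 := heq _ _ _ _ n1 n2
      have v13 := heq _ _ _ _ n1 n3
      rw [s1, s2, map_mul, map_mul] at v12
      rw [s1, s3, map_mul, map_mul] at v13
      have hvt : v.valuation ℚ t ≠ 0 := (Valuation.ne_zero_iff _).mpr ht0
      have w12 := mul_left_cancel₀ hvt v12
      have w13 := mul_left_cancel₀ hvt v13
      -- all three have valuation less than one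
      have hlt : v.valuation ℚ ((A : ℤ) : ℚ) < 1 := by
        rcases (Nat.Prime.dvd_mul hp).mp hpn with h7 | h7
        · rcases (Nat.Prime.dvd_mul hp).mp h7 with h8 | h8
          · rw [val_natAbs]
            exact Pool.Agent.Y678.SZ.val_lt_of_dvd v hpv h8
          · rw [w12, val_natAbs]
            rw [Int.natAbs_neg] at h8
            exact Pool.Agent.Y678.SZ.val_lt_of_dvd v hpv h8
        · rw [w13, val_natAbs]
          exact Pool.Agent.Y678.SZ.val_lt_of_dvd v hpv h7
      have hcN : Nat.Coprime A.natAbs B.natAbs := Int.isCoprime_iff_gcd_eq_one.mp hco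
      rcases Pool.Agent.Y678.SZ.val_one_or (K := ℚ) hcN v with h6 | h6
      · rw [← val_natAbs] at h6
        exact absurd h6 hlt.ne
      · rw [← val_natAbs, ← w12] at h6
        exact absurd h6 hlt.ne)
    rwa [Module.finrank_self, pow_one] at h1
  have hM1 : 1 ≤ badNorm g (pol d (root x)) := Pool.Agent.Y678.SZ.one_le_badNorm hF
  set M := badNorm g (pol d (root x)) with hM
  have hM0 : (0 : ℝ) < M := by exact_mod_cast hM1
  have hr : (rad N : ℝ) ≤ 2 * M := by
    have h1 := rad_le 2 N
    have h2 : rad N ≤ 2 * M := h1.trans (by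
      have : Nat.factorial 2 = 2 := rfl
      rw [this]
      exact Nat.mul_le_mul_left _ hw)
    exact_mod_cast h2
  have hmax : (0 : ℝ) < ((max A.natAbs B.natAbs : ℕ) : ℝ) := by
    have : 0 < max A.natAbs B.natAbs := lt_max_of_lt_left (Int.natAbs_pos.mpr hA0)
    exact_mod_cast this
  have hrR : (0 : ℝ) < rad N := by exact_mod_cast rad_pos _
  have h5 : ((max A.natAbs B.natAbs : ℕ) : ℝ) ≤ (|C| + 1) * (2 * M) ^ l := by
    calc ((max A.natAbs B.natAbs : ℕ) : ℝ) ≤ C * (rad N : ℝ) ^ l := habc
      _ ≤ (|C| + 1) * (rad N : ℝ) ^ l := by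
          have := le_abs_self C
          gcongr
          linarith
      _ ≤ _ := by gcongr
  rw [hh]
  have l5 := Real.log_le_log hmax h5
  rwa [Real.log_mul (by positivity) (by positivity), Real.log_rpow (by positivity),
    Real.log_mul (by norm_num) hM0.ne'] at l5

/-- abc implies the inequality for the curves `y² = d x (x - x_0) ... (x - x_n)` over `ℚ` -/
theorem root_of_abc {g : ℕ} (hg : 2 ≤ g) {l : ℝ} (hl : 0 ≤ l) (h : AbcExp l) :
    ∃ c : ℝ, ∀ (n : ℕ) (_ : n + 1 = 2 * g) (d : ℚ) (x : Fin (n + 1) → ℚ), d ≠ 0 →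
      Function.Injective (root x) → (discNorm g (pol d (root x)) : ℝ) ≤
        c * (badNorm g (pol d (root x)) : ℝ) ^ ((4 * g + 2) + (2 * g + 1) * (2 * g) *
          (2 * g - 1) * l) := by
  obtain ⟨C, hC⟩ := h
  obtain ⟨n₀, hn₀⟩ : ∃ n₀, n₀ + 1 = 2 * g := ⟨2 * g - 1, by omega⟩
  obtain ⟨c₁, hc₁⟩ := log_disc_le ℚ hn₀ hg
  refine ⟨Real.exp ((2 * g + 1) * (2 * g) * (2 * g - 1) *
    (Real.log (|C| + 1) + l * Real.log 2) + c₁), ?_⟩
  intro n hn d x hd hx
  obtain rfl : n = n₀ := by omega
  have hF : IsHyp g (pol d (root x)) := pol_isHyp (by omega) hd hx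
  have hM1 : 1 ≤ badNorm g (pol d (root x)) := Pool.Agent.Y678.SZ.one_le_badNorm hF
  have h1 := hc₁ x hx d hd
  have hx0 : x 0 ≠ 0 := by
    intro h0
    have h1 : root x (Fin.succ 0) = root x 0 := by simpa [root] using h0
    exact absurd (hx h1) (Fin.succ_ne_zero _)
  have h2 := height_le_sum (by omega) x hx0
  have h3 : ∑ i : Fin n, logHeight ![x 0, x i.succ] ≤ ∑ _i : Fin n, (Real.log (|C| + 1) +
      l * (Real.log 2 + Real.log (badNorm g (pol d (root x))))) :=
    sum_le_sum fun i _ => pair_height hn hg hd hx hl hC i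
  rw [sum_const, card_univ, Fintype.card_fin, nsmul_eq_mul] at h3
  set M := badNorm g (pol d (root x)) with hM
  set Δ := discNorm g (pol d (root x)) with hΔ
  have hM0 : (0 : ℝ) < M := by exact_mod_cast hM1
  have hnR : (n : ℝ) = 2 * g - 1 := by
    have : (n : ℝ) + 1 = 2 * g := by exact_mod_cast hn
    linarith
  have hgR : (2 : ℝ) ≤ g := by exact_mod_cast hg
  rcases Nat.eq_zero_or_pos Δ with h0 | h0
  · rw [h0, Nat.cast_zero]
    positivity
  · have hΔ0 : (0 : ℝ) < Δ := by exact_mod_cast h0
    rw [← Real.log_le_log_iff hΔ0 (by positivity), Real.log_mul (Real.exp_pos _).ne'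
      (by positivity), Real.log_exp, Real.log_rpow hM0]
    have h4 : logHeight x ≤ (2 * g - 1) * (Real.log (|C| + 1) + l * (Real.log 2 + Real.log M)) := by
      rw [← hnR]
      linarith
    have e1 : ((n : ℝ) + 2) = 2 * g + 1 := by rw [hnR]; ring
    have e2 : ((n : ℝ) + 1) = 2 * g := by rw [hnR]; ring
    rw [e1, e2] at h1
    have h5 : (2 * (g : ℝ) + 1) * (2 * g) * logHeight x ≤ (2 * g + 1) * (2 * g) *
        ((2 * g - 1) * (Real.log (|C| + 1) + l * (Real.log 2 + Real.log M))) := by gcongr
    linarith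

end Pool.Agent.Q272.HA
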