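import Pool.Agent.Q272.HA.Rat

/-!
# Hyperelliptic curves with rational Weierstrass points: the general equation
-/

set_option autoImplicit false

namespace Pool.Agent.Q272.HA

open Polynomial Finset NumberField IsDedekindDomain WithZero Pool.Agent.W318
open Pool.Agent.Q272.TR (rad rad_pos AbcExp)
open Pool.Agent.TH905.HS (root pol)

section

variable {K : Type} [Field K] [NumberField K]

theorem model_iff {g : ℕ} {F F' : K[X]} (e : FunField K F' 0 ≃ₐ[K] FunField K F 0)
    (v : HeightOneSpectrum (𝓞 K)) (f f₂ : K[X]) : IsModel g F v f f₂ ↔ IsModel g F' v f f₂ := by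
  constructor
  · intro h
    obtain ⟨φ⟩ := h.iso
    exact ⟨h.int, h.int₂, h.lower, h.upper, ⟨φ.trans e.symm⟩⟩
  · intro h
    obtain ⟨φ⟩ := h.iso
    exact ⟨h.int, h.int₂, h.lower, h.upper, ⟨φ.trans e⟩⟩

theorem minExp_congr {g : ℕ} {F F' : K[X]} (e : FunField K F' 0 ≃ₐ[K] FunField K F 0)
    (v : HeightOneSpectrum (𝓞 K)) : minExp g F v = minExp g F' v := by
  unfold minExp
  congr 1
  ext m
  constructor
  · rintro ⟨f, f₂, h1, h2⟩
    exact ⟨f, f₂, (model_iff e v f f₂).mp h1, h2⟩
  · rintro ⟨f, f₂, h1, h2⟩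
    exact ⟨f, f₂, (model_iff e v f f₂).mpr h1, h2⟩

theorem norms_congr {g : ℕ} {F F' : K[X]} (hF : IsHyp g F) (he : Eqv (g + 1) F F') :
    discNorm g F = discNorm g F' ∧ badNorm g F = badNorm g F' := by
  obtain ⟨e⟩ := unbridge (by have := hF.2; omega) he
  have h : ∀ v, minExp g F v = minExp g F' v := minExp_congr e
  unfold discNorm badNorm
  constructor <;> simp only [h]

/-- the equation `y² = d x (x - x_0) ... (x - x_n)` -/
theorem exists_pol {g n : ℕ} (hn : n + 1 = 2 * g) {F : K[X]} (hF : IsHyp g F) (hs : F.Splits) :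
    ∃ (d : K) (x : Fin (n + 1) → K), d ≠ 0 ∧ Function.Injective (root x) ∧
      Eqv (g + 1) F (pol d (root x)) := by
  classical
  have hs' : (F.map (algebraMap K K)).Splits := by
    rw [Algebra.algebraMap_self, Polynomial.map_id]
    exact hs
  obtain ⟨u, α, β, hu, -, hne, hfac⟩ := exists_factor_form (K := K) (M := K)
    (AbsoluteValue.trivial : AbsoluteValue K ℝ) (by omega : 1 ≤ g + 1) hF.good.2 hF.1 hs'
  rw [Algebra.algebraMap_self, Polynomial.map_id] at hfac
  have hN : n + 1 + 1 + 1 = g + 1 + (g + 1) := by omega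
  set σ : Fin (n + 1 + 1 + 1) → Fin (g + 1 + (g + 1)) := Fin.cast hN with hσ
  have hσi : Function.Injective σ := Fin.cast_injective hN
  set i0 := σ 0 with hi0
  set i1 := σ (Fin.succ 0) with hi1
  set D : Fin (g + 1 + (g + 1)) → Fin (g + 1 + (g + 1)) → K :=
    fun i j => α i * β j - α j * β i with hD
  have hDne : ∀ i j, i ≠ j → D i j ≠ 0 := fun i j h => hne i j h
  have h01 : i0 ≠ i1 := fun h => absurd (hσi h) (Fin.succ_ne_zero _).symm
  have h10 : D i1 i0 ≠ 0 := hDne _ _ h01.symm
  have h01' : D i0 i1 ≠ 0 := hDne _ _ h01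
  set k2 : Fin (n + 1) → Fin (g + 1 + (g + 1)) := fun k => σ k.succ.succ with hk2
  have hk20 : ∀ k, i0 ≠ k2 k := fun k h => absurd (hσi h) (Fin.succ_ne_zero _).symm
  have hk21 : ∀ k, i1 ≠ k2 k := fun k h =>
    absurd (Fin.succ_injective _ (hσi h)) (Fin.succ_ne_zero _).symm
  have hk2i : Function.Injective k2 := fun k k' h =>
    Fin.succ_injective _ (Fin.succ_injective _ (hσi h))
  set x : Fin (n + 1) → K := fun k => -(D i1 (k2 k)) / D i0 (k2 k) with hx
  set d : K := u * (D i1 i0 * (D i0 i1 * ∏ k, D i0 (k2 k))) with hd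
  have hd0 : d ≠ 0 := mul_ne_zero hu (mul_ne_zero h10 (mul_ne_zero h01'
    (prod_ne_zero_iff.mpr fun k _ => hDne _ _ (hk20 k))))
  refine ⟨d, x, hd0, ?_, ?_⟩
  · -- injectivity
    have hx0 : ∀ k, x k ≠ 0 := fun k =>
      div_ne_zero (neg_ne_zero.mpr (hDne _ _ (hk21 k))) (hDne _ _ (hk20 k))
    have hxx : ∀ k k', x k = x k' → k = k' := by
      intro k k' h
      by_contra hkk
      have h1 := hDne _ _ (hk20 k)
      have h2 := hDne _ _ (hk20 k')
      have h3 := hDne _ _ (fun h => hkk (hk2i h))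
      simp only [hx] at h
      rw [div_eq_div_iff h1 h2] at h
      have h4 : D i0 i1 * D (k2 k) (k2 k') = 0 := by
        have e : D i0 i1 * D (k2 k) (k2 k') =
            D i0 (k2 k) * D i1 (k2 k') - D i0 (k2 k') * D i1 (k2 k) := by
          simp only [hD]
          ring
        rw [e]
        linear_combination h
      rcases mul_eq_zero.mp h4 with h5 | h5
      · exact h01' h5
      · exact h3 h5
    intro i j
    refine Fin.cases ?_ (fun k => ?_) i
    · refine Fin.cases (fun _ => rfl) (fun k' h => ?_) j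
      simp only [root, Fin.cons_zero, Fin.cons_succ] at h
      exact absurd h.symm (hx0 k')
    · refine Fin.cases (fun h => ?_) (fun k' h => ?_) j
      · simp only [root, Fin.cons_zero, Fin.cons_succ] at h
        exact absurd h (hx0 k)
      · simp only [root, Fin.cons_succ] at h
        rw [hxx k k' h]
  · -- the substitution
    have hdet : -β i0 * α i1 - -β i1 * α i0 ≠ 0 := by
      have : -β i0 * α i1 - -β i1 * α i0 = D i0 i1 := by
        simp only [hD]
        ring
      rw [this]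
      exact h01'
    have hcd : α i0 ≠ 0 ∨ α i1 ≠ 0 := by
      by_contra hcon
      push Not at hcon
      rw [hcon.1, hcon.2] at hdet
      simp at hdet
    refine ⟨-β i0, -β i1, α i0, α i1, 1, hdet, one_ne_zero, ?_⟩
    rw [hfac, act_prod _ hcd, one_pow, C_1, one_mul]
    have hprod : ∏ i, (C (α i * -β i0 + β i * α i0) * X + C (α i * -β i1 + β i * α i1) : K[X]) =
        ∏ j : Fin (n + 1 + 1 + 1), (C (D i0 (σ j)) * X + C (D i1 (σ j))) := by
      symm
      refine Fintype.prod_equiv (finCongr hN) _ _ fun j => ?_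
      have e1 : α ((finCongr hN) j) * -β i0 + β ((finCongr hN) j) * α i0 = D i0 (σ j) := by
        simp only [hD, hσ, finCongr_apply]
        ring
      have e2 : α ((finCongr hN) j) * -β i1 + β ((finCongr hN) j) * α i1 = D i1 (σ j) := by
        simp only [hD, hσ, finCongr_apply]
        ring
      rw [e1, e2]
    rw [hprod, Fin.prod_univ_succ, Fin.prod_univ_succ]
    have e00 : D i0 (σ 0) = 0 := by simp only [hD, ← hi0]; ring
    have e11 : D i1 (σ (Fin.succ 0)) = 0 := by simp only [hD, ← hi1]; ring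
    rw [e00, e11, ← hi0, ← hi1]
    have hfactor : ∀ k : Fin (n + 1), (C (D i0 (σ k.succ.succ)) * X +
        C (D i1 (σ k.succ.succ)) : K[X]) = C (D i0 (k2 k)) * (X - C (x k)) := by
      intro k
      have h1 := hDne _ _ (hk20 k)
      rw [mul_sub, ← C_mul]
      have e : D i0 (k2 k) * x k = -(D i1 (k2 k)) := by
        simp only [hx]
        rw [mul_div_cancel₀ _ h1]
      rw [e, C_neg, sub_neg_eq_add]
    rw [prod_congr rfl fun k _ => hfactor k, prod_mul_distrib]
    unfold pol
    rw [Fin.prod_univ_succ]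
    simp only [root, Fin.cons_zero, Fin.cons_succ, C_0, zero_mul, zero_add, add_zero, sub_zero]
    rw [hd, C_mul, C_mul, C_mul, map_prod]
    ring

end

/-- abc implies the inequality for the hyperelliptic curves over `ℚ` all whose Weierstrass points
are rational -/
theorem spl_of_abc {g : ℕ} (hg : 2 ≤ g) {l : ℝ} (hl : 0 ≤ l) (h : AbcExp l) :
    Ineq ℚ g (fun F => F.Splits) ((4 * g + 2) + (2 * g + 1) * (2 * g) * (2 * g - 1) * l) := by
  obtain ⟨c, hc⟩ := root_of_abc hg hl h
  refine ⟨c, fun F hF hs => ?_⟩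
  obtain ⟨n, hn⟩ : ∃ n, n + 1 = 2 * g := ⟨2 * g - 1, by omega⟩
  obtain ⟨d, x, hd, hx, he⟩ := exists_pol hn hF hs
  obtain ⟨h1, h2⟩ := norms_congr hF he
  rw [h1, h2]
  exact hc n hn d x hd hx

end Pool.Agent.Q272.HA
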