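import Pool.Agent.Y678.SZ.Main
import Pool.Agent.Q272.TR.Abc
import Pool.Agent.Q272.LP.Cond

/-!
# The hyperelliptic curves `y² = Y (x^(g+1) + 1)² + 4 T x^(g+1)` and the abc inequality
-/

set_option autoImplicit false

namespace Pool.Agent.Q272.HA

open Polynomial Finset NumberField IsDedekindDomain WithZero Pool.Agent.W318 Pool.Agent.Y678.SZ
open Pool.Agent.Q272.TR (rad rad_pos AbcExp)

/-- the inequality `Δ_C ≤ c M_C ^ κ` for the hyperelliptic curves `y² = F` of genus `g` over `K`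
with the property `P` -/
def Ineq (K : Type) [Field K] [NumberField K] (g : ℕ) (P : K[X] → Prop) (κ : ℝ) : Prop :=
  ∃ c : ℝ, ∀ F : K[X], IsHyp g F → P F → (discNorm g F : ℝ) ≤ c * (badNorm g F : ℝ) ^ κ

/-- the right hand side `Y (x^(g+1) + 1)² + 4 T x^(g+1)` -/
noncomputable def trin (K : Type) [Field K] (g Y T : ℕ) : K[X] :=
  C (Y : K) * (X ^ (g + 1) + 1) ^ 2 + C (4 * (T : K)) * X ^ (g + 1)

/-- the trinomials with coprime positive `Y` and `T` -/
def IsTrin (K : Type) [Field K] (g : ℕ) (F : K[X]) : Prop :=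
  ∃ Y T : ℕ, 0 < Y ∧ 0 < T ∧ Nat.Coprime Y T ∧ F = trin K g Y T

theorem trin_eq (K : Type) [Field K] (g Y T : ℕ) :
    trin K g Y T = frm (g + 1) (Y : K) (T : K) ((1 : ℕ) : K) := by
  unfold trin frm tri
  simp only [Nat.cast_one, one_pow, mul_one, one_mul]
  have e : (C (2 * (Y : K) + 4 * T) : K[X]) = 2 * C (Y : K) + C (4 * (T : K)) := by
    rw [C_add, C_mul]
    congr 1
  rw [e, pow_add]
  ring

section

variable {K : Type} [Field K] [NumberField K] {g Y T : ℕ}

theorem trin_low (hg : 2 ≤ g) (hY : 0 < Y) (hT : 0 < T) (hcop : Nat.Coprime Y T) :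
    DD g Y T 1 ^ Module.finrank ℚ K ≤
      C0 g ^ Module.finrank ℚ K * discNorm g (trin K g Y T) := by
  rw [trin_eq]
  have hDD0 : DD g Y T 1 ≠ 0 := by unfold DD; positivity
  have hC0 : C0 g ≠ 0 := by unfold C0; positivity
  exact disc_lower (isHyp_frm hY hT one_pos) hDD0 hC0 fun v =>
    place_ineq hg hY hT one_pos hcop v (Or.inl (by simp))

theorem trin_hyp (hY : 0 < Y) (hT : 0 < T) : IsHyp g (trin K g Y T) := by
  rw [trin_eq]
  exact isHyp_frm hY hT one_pos

theorem dvd_rad {p n : ℕ} (hp : p.Prime) (hn : n ≠ 0) (h : p ∣ n) : p ∣ rad n :=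
  dvd_prod_of_mem _ (Nat.mem_primeFactors.mpr ⟨hp, h, hn⟩)

theorem trin_bad (hY : 0 < Y) (hT : 0 < T) :
    badNorm g (trin K g Y T) ≤
      (2 * (g + 1) * rad (Y * T * (Y + T))) ^ Module.finrank ℚ K := by
  rw [trin_eq]
  have hn0 : Y * T * (Y + T) ≠ 0 := by positivity
  have hr := rad_pos (Y * T * (Y + T))
  refine bad_upper (isHyp_frm hY hT one_pos) (by positivity) fun v hv => ?_
  have h3 := bad_place hY hT one_pos v hv
  have hDD0 : 2 * DD g Y T 1 ≠ 0 := by unfold DD; positivity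
  obtain ⟨p, hp, hpd, hpv⟩ := exists_prime_of_val v hDD0 h3
  refine val_lt_of_dvd v hpv ?_
  have h2' : (2 : ℕ) ∣ 2 * (g + 1) * rad (Y * T * (Y + T)) :=
    ⟨(g + 1) * rad (Y * T * (Y + T)), by ring⟩
  have hYT : p ∣ Y * T * (Y + T) → p ∣ 2 * (g + 1) * rad (Y * T * (Y + T)) := fun h =>
    (dvd_rad hp hn0 h).mul_left _
  unfold DD at hpd
  rcases (Nat.Prime.dvd_mul hp).mp hpd with h | h
  · exact h.trans h2'
  rcases (Nat.Prime.dvd_mul hp).mp h with h | h
  · rcases (Nat.Prime.dvd_mul hp).mp h with h | h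
    · rcases (Nat.Prime.dvd_mul hp).mp h with h | h
      · exact (hp.dvd_of_dvd_pow h).trans ⟨2 * rad (Y * T * (Y + T)), by ring⟩
      · exact absurd (hp.dvd_of_dvd_pow h) (by
          intro hc
          exact hp.one_lt.ne' (Nat.dvd_one.mp hc))
    · exact hYT (((hp.dvd_of_dvd_pow h).mul_right _).mul_right _)
  · rcases (Nat.Prime.dvd_mul hp).mp (hp.dvd_of_dvd_pow h) with h | h
    · have : p ∣ 2 := hp.dvd_of_dvd_pow (show p ∣ 2 ^ 4 from h)
      exact this.trans h2'
    · rcases (Nat.Prime.dvd_mul hp).mp h with h | h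
      · exact hYT ((h.mul_left _).mul_right _)
      · exact hYT (h.mul_left _)

/-- the integral form itself is a model -/
theorem trin_min (hY : 0 < Y) (hT : 0 < T) (v : HeightOneSpectrum (𝓞 K)) :
    minExp g (trin K g Y T) v ≤ cnt v (2 ^ (4 * g) * DD g Y T 1) := by
  rw [trin_eq]
  have hF := isHyp_frm (K := K) (g := g) hY hT one_pos
  have hd : (frm (g + 1) (Y : K) T ((1 : ℕ) : K)).natDegree ≤ g + 1 + (g + 1) := by
    have := hF.2
    omega
  have hint : ∀ i, v.valuation K ((frm (g + 1) (Y : K) T ((1 : ℕ) : K)).coeff i) ≤ 1 := by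
    intro i
    have : ∃ z : ℕ, (frm (g + 1) (Y : K) T ((1 : ℕ) : K)).coeff i = (z : K) := by
      rw [frm, tri]
      simp only [coeff_add, coeff_C_mul, coeff_X_pow, coeff_C]
      refine ⟨1 * (Y * (1 ^ ((g + 1) / 2)) ^ 2) * (if i = g + 1 + (g + 1) then 1 else 0) +
        1 * ((2 * Y + 4 * T) * 1 ^ ((g + 1) / 2)) * (if i = g + 1 then 1 else 0) +
        (if i = 0 then 1 * Y else 0), ?_⟩
      push_cast
      rfl
    obtain ⟨z, hz⟩ := this
    rw [hz]
    exact val_nat_le_one v z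
  obtain ⟨t, ht⟩ := exists_two_exp v
  obtain ⟨k, hk, _, hle⟩ := minExp_le hF v (Eqv.refl hd) hint ht
  rw [val_discN_frm hY one_pos] at hk
  have hDD0 : 2 ^ (4 * g) * DD g Y T 1 ≠ 0 := by unfold DD; positivity
  have h1 := val_cnt v hDD0
  rw [Nat.cast_mul, map_mul, hk, Nat.cast_pow, map_pow] at h1
  have h2 : v.valuation K ((2 : ℕ) : K) = exp (-(t : ℤ)) := by rw [← ht]; norm_num
  rw [h2, ← exp_nsmul, ← exp_add, exp_inj] at h1
  simp only [nsmul_eq_mul] at h1
  push_cast at h1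
  have h3 : ((4 * g * t + k : ℕ) : ℤ) = (cnt v (2 ^ (4 * g) * DD g Y T 1) : ℤ) := by
    push_cast
    linarith
  have h4 : 4 * g * t + k = cnt v (2 ^ (4 * g) * DD g Y T 1) := by exact_mod_cast h3
  omega

theorem trin_up (hY : 0 < Y) (hT : 0 < T) :
    discNorm g (trin K g Y T) ≤ (2 ^ (4 * g) * DD g Y T 1) ^ Module.finrank ℚ K := by
  classical
  have hDD0 : 2 ^ (4 * g) * DD g Y T 1 ≠ 0 := by unfold DD; positivity
  obtain ⟨S₁, hS₁⟩ := prod_cnt (K := K) hDD0
  have hB := finite_bad (trin_hyp (K := K) (g := g) hY hT)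
  rw [discNorm_eq (S₁ ∪ hB.toFinset) (fun v hv => by simp [hv]), ← hS₁ _ subset_union_left]
  refine Finset.prod_le_prod (fun _ _ => Nat.zero_le _) fun v _ => ?_
  exact Nat.pow_le_pow_right (one_le_absNorm v) (trin_min hY hT v)

/-- a lower bound for the product of the bad places -/
theorem bad_lower {F : K[X]} (hF : IsHyp g F) {w : ℕ} (hw : Squarefree w)
    (hd : ∀ p : ℕ, p.Prime → p ∣ w → (discr K).natAbs < p)
    (h : ∀ v : HeightOneSpectrum (𝓞 K), v.valuation K (w : K) < 1 → minExp g F v ≠ 0) :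
    w ^ Module.finrank ℚ K ≤ badNorm g F := by
  classical
  have hw0 := hw.ne_zero
  obtain ⟨S₁, hS₁⟩ := prod_cnt (K := K) hw0
  have hB := finite_bad hF
  rw [badNorm_eq hB.toFinset (fun v => by simp), ← hS₁ (S₁ ∪ hB.toFinset) subset_union_left]
  have hval : ∀ v : HeightOneSpectrum (𝓞 K), cnt v w = 0 ∨ (cnt v w = 1 ∧ minExp g F v ≠ 0) := by
    intro v
    rcases val_squarefree hw hd v with h1 | h1
    · left
      rw [val_cnt v hw0, ← exp_zero, exp_inj] at h1
      omega
    · right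
      have h2 : v.valuation K (w : K) < 1 := by
        rw [h1, ← exp_zero, exp_lt_exp]
        norm_num
      refine ⟨?_, h v h2⟩
      rw [val_cnt v hw0, exp_inj] at h1
      omega
  have h1 : ∏ v ∈ S₁ ∪ hB.toFinset, Ideal.absNorm v.asIdeal ^ cnt v w =
      ∏ v ∈ hB.toFinset, Ideal.absNorm v.asIdeal ^ cnt v w := by
    symm
    refine Finset.prod_subset subset_union_right fun v _ hv => ?_
    rcases hval v with h2 | ⟨-, h2⟩
    · rw [h2, pow_zero]
    · exact absurd (by simpa using h2) hv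
  rw [h1]
  refine Finset.prod_le_prod (fun _ _ => Nat.zero_le _) fun v _ => ?_
  calc Ideal.absNorm v.asIdeal ^ cnt v w ≤ Ideal.absNorm v.asIdeal ^ 1 :=
        Nat.pow_le_pow_right (one_le_absNorm v) (by rcases hval v with h2 | ⟨h2, -⟩ <;> omega)
    _ = _ := pow_one _

end

/-- the primes of `n` above `P` -/
def radP (P n : ℕ) : ℕ := ∏ p ∈ n.primeFactors.filter (fun p => P < p), p

theorem radP_sq (P n : ℕ) : Squarefree (radP P n) := by
  have hs : ∀ p ∈ n.primeFactors.filter (fun p => P < p), p.Prime := fun p hp =>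
    Nat.prime_of_mem_primeFactors (mem_filter.mp hp).1
  have hne : radP P n ≠ 0 := prod_ne_zero_iff.mpr fun p hp => (hs p hp).ne_zero
  refine Nat.squarefree_of_factorization_le_one hne fun q => ?_
  have h1 : radP P n = ∏ p ∈ n.primeFactors.filter (fun p => P < p), p ^ (fun _ => 1) p := by
    unfold radP
    simp
  rw [h1, Pool.Agent.Q272.LP.fact_prod _ hs]
  split_ifs <;> simp

theorem dvd_radP {P n p : ℕ} (hp : p.Prime) (h : p ∣ radP P n) : p ∣ n ∧ P < p := by
  unfold radP at h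
  obtain ⟨q, hq, hpq⟩ := (Nat.Prime.prime hp).exists_mem_finset_dvd h
  obtain ⟨h1, h2⟩ := mem_filter.mp hq
  have h3 : p = q := (Nat.prime_dvd_prime_iff_eq hp (Nat.prime_of_mem_primeFactors h1)).mp hpq
  rw [h3]
  exact ⟨Nat.dvd_of_mem_primeFactors h1, h2⟩

theorem rad_le (P n : ℕ) : rad n ≤ P.factorial * radP P n := by
  have h1 : rad n = (∏ p ∈ n.primeFactors.filter (fun p => ¬ P < p), p) * radP P n := by
    unfold rad radP
    rw [mul_comm]
    exact (prod_filter_mul_prod_filter_not _ _ _).symm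
  rw [h1]
  refine Nat.mul_le_mul_right _ ?_
  have h2 : P.factorial = ∏ i ∈ Finset.Ico 1 (P + 1), i := (Finset.prod_Ico_id_eq_factorial P).symm
  rw [h2]
  refine prod_le_prod_of_subset_of_one_le' ?_ ?_
  · intro p hp
    obtain ⟨h3, h4⟩ := mem_filter.mp hp
    have := (Nat.prime_of_mem_primeFactors h3).one_lt
    rw [Finset.mem_Ico]
    omega
  · intro i hi _
    exact (Finset.mem_Ico.mp hi).1

/-- the inequality for the trinomials implies abc -/
theorem abc_of_trin (K : Type) [Field K] [NumberField K] {g : ℕ} (hg : 2 ≤ g) {κ : ℝ}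
    (hκ : 0 ≤ κ) (h : Ineq K g (IsTrin K g) κ) : AbcExp (κ / (3 * g + 1)) := by
  obtain ⟨c₀, hc₀⟩ := h
  set d := Module.finrank ℚ K with hd
  have hd1 : 0 < d := Module.finrank_pos
  have hdR : (0 : ℝ) < d := by exact_mod_cast hd1
  have hC0 : (1 : ℝ) ≤ C0 g := by
    have : C0 g ≠ 0 := by unfold C0; positivity
    exact_mod_cast Nat.one_le_iff_ne_zero.mpr this
  -- the inequality for `T ≤ Y`
  have key : ∀ Y T : ℕ, 0 < Y → 0 < T → Nat.Coprime Y T → T ≤ Y →
      (3 * g + 1) * Real.log ((Y + T : ℕ) : ℝ) ≤ Real.log (C0 g) + Real.log (|c₀| + 1) / d +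
        κ * Real.log (2 * (g + 1)) + κ * Real.log (rad (Y * T * (Y + T))) := by
    intro Y T hY hT hcop hle
    have hF := trin_hyp (K := K) (g := g) hY hT
    have h1 := trin_low (K := K) hg hY hT hcop
    have h2 := trin_bad (K := K) (g := g) hY hT
    have h3 := hc₀ _ hF ⟨Y, T, hY, hT, hcop, rfl⟩
    have h4 := one_le_badNorm hF
    rw [← hd] at h1 h2
    set Δ := discNorm g (trin K g Y T) with hΔ
    set M := badNorm g (trin K g Y T) with hM
    have hZ : (Y + T) ^ (3 * g + 1) ≤ DD g Y T 1 := by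
      have e1 : (Y + T) ^ (2 * g) ≤ (2 * Y) ^ (2 * g) := Nat.pow_le_pow_left (by omega) _
      have e2 : (Y + T) ^ (g + 1) * 2 ^ (2 * g) ≤ (16 * (T * (Y + T))) ^ (g + 1) * 1 := by
        rw [mul_one, mul_pow 16]
        have e3 : (Y + T) ^ (g + 1) ≤ (T * (Y + T)) ^ (g + 1) :=
          Nat.pow_le_pow_left (Nat.le_mul_of_pos_left _ hT) _
        have e4 : 2 ^ (2 * g) ≤ 16 ^ (g + 1) := by
          rw [show (16 : ℕ) = 2 ^ 4 by norm_num, ← pow_mul]
          exact Nat.pow_le_pow_right (by norm_num) (by omega)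
        calc (Y + T) ^ (g + 1) * 2 ^ (2 * g) ≤ (T * (Y + T)) ^ (g + 1) * 16 ^ (g + 1) := by gcongr
          _ = _ := by ring
      have e5 : 1 ≤ (g + 1) ^ (g + 1 + (g + 1)) := Nat.one_le_pow _ _ (by omega)
      unfold DD
      calc (Y + T) ^ (3 * g + 1) = (Y + T) ^ (2 * g) * (Y + T) ^ (g + 1) := by
            rw [← pow_add]; congr 1; omega
        _ ≤ (2 * Y) ^ (2 * g) * (Y + T) ^ (g + 1) := by gcongr
        _ = 1 * Y ^ (2 * g) * ((Y + T) ^ (g + 1) * 2 ^ (2 * g)) := by rw [mul_pow]; ring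
        _ ≤ (g + 1) ^ (g + 1 + (g + 1)) * Y ^ (2 * g) * ((16 * (T * (Y + T))) ^ (g + 1) * 1) := by
            gcongr
        _ = _ := by ring
    have hZ0 : (0 : ℝ) < ((Y + T : ℕ) : ℝ) := by exact_mod_cast (by omega : 0 < Y + T)
    have hM0 : (0 : ℝ) < M := by exact_mod_cast h4
    have hr := rad_pos (Y * T * (Y + T))
    have hrR : (0 : ℝ) < rad (Y * T * (Y + T)) := by exact_mod_cast hr
    have hDD0 : (0 : ℝ) < DD g Y T 1 := by
      have : 0 < DD g Y T 1 := by unfold DD; positivity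
      exact_mod_cast this
    have h1R : (DD g Y T 1 : ℝ) ^ d ≤ (C0 g : ℝ) ^ d * ((|c₀| + 1) * (M : ℝ) ^ κ) := by
      have e1 : (DD g Y T 1 : ℝ) ^ d ≤ (C0 g : ℝ) ^ d * Δ := by exact_mod_cast h1
      refine e1.trans ?_
      have e2 : (Δ : ℝ) ≤ (|c₀| + 1) * (M : ℝ) ^ κ := by
        refine h3.trans ?_
        have : (0 : ℝ) < (M : ℝ) ^ κ := Real.rpow_pos_of_pos hM0 κ
        have := le_abs_self c₀
        gcongr
        linarith
      gcongr
    have hc1 : 0 < |c₀| + 1 := by positivity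
    have l1 := Real.log_le_log (by positivity) h1R
    rw [Real.log_pow, Real.log_mul (by positivity) (by positivity), Real.log_pow,
      Real.log_mul hc1.ne' (Real.rpow_pos_of_pos hM0 κ).ne', Real.log_rpow hM0] at l1
    have h2R : (M : ℝ) ≤ (2 * (g + 1) * rad (Y * T * (Y + T)) : ℝ) ^ d := by exact_mod_cast h2
    have l2 := Real.log_le_log hM0 h2R
    rw [Real.log_pow, Real.log_mul (by positivity) hrR.ne'] at l2
    have hZR : ((Y + T : ℕ) : ℝ) ^ (3 * g + 1) ≤ DD g Y T 1 := by exact_mod_cast hZ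
    have l3 := Real.log_le_log (by positivity) hZR
    rw [Real.log_pow] at l3
    have l4 : κ * Real.log M ≤ κ * (d * (Real.log (2 * (g + 1)) +
        Real.log (rad (Y * T * (Y + T))))) := by gcongr
    have l5 : (d : ℝ) * ((3 * g + 1) * Real.log ((Y + T : ℕ) : ℝ)) ≤
        d * Real.log (DD g Y T 1) := by
      have : ((3 * g + 1 : ℕ) : ℝ) = 3 * g + 1 := by push_cast; ring
      rw [this] at l3
      gcongr
    have l6 : (d : ℝ) * ((3 * g + 1) * Real.log ((Y + T : ℕ) : ℝ)) ≤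
        d * (Real.log (C0 g) + Real.log (|c₀| + 1) / d +
        κ * Real.log (2 * (g + 1)) + κ * Real.log (rad (Y * T * (Y + T)))) := by
      have e : (d : ℝ) * (Real.log (C0 g) + Real.log (|c₀| + 1) / d +
        κ * Real.log (2 * (g + 1)) + κ * Real.log (rad (Y * T * (Y + T)))) =
        d * Real.log (C0 g) + (Real.log (|c₀| + 1) + κ * (d * (Real.log (2 * (g + 1)) +
        Real.log (rad (Y * T * (Y + T)))))) := by
        field_simp
        ring
      rw [e]
      linarith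
    exact le_of_mul_le_mul_left l6 hdR
  have hg0 : (0 : ℝ) < 3 * g + 1 := by positivity
  obtain ⟨A, hA⟩ : ∃ A, A = Real.log (C0 g) + Real.log (|c₀| + 1) / d +
    κ * Real.log (2 * (g + 1)) := ⟨_, rfl⟩
  rw [← hA] at key
  refine ⟨Real.exp (A / (3 * g + 1)), fun a b c ha hb hab hcop => ?_⟩
  have main : ∀ Y T : ℕ, 0 < Y → 0 < T → Nat.Coprime Y T → T ≤ Y →
      ((Y + T : ℕ) : ℝ) ≤ Real.exp (A / (3 * g + 1)) *
        (rad (Y * T * (Y + T)) : ℝ) ^ (κ / (3 * g + 1)) := by
    intro Y T hY hT hcop hle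
    have hrR : (0 : ℝ) < rad (Y * T * (Y + T)) := by exact_mod_cast rad_pos _
    have hZ0 : (0 : ℝ) < ((Y + T : ℕ) : ℝ) := by exact_mod_cast (by omega : 0 < Y + T)
    rw [← Real.log_le_log_iff hZ0 (by positivity), Real.log_mul (Real.exp_pos _).ne'
      (by positivity), Real.log_exp, Real.log_rpow hrR]
    have h1 := key Y T hY hT hcop hle
    have e : A / (3 * g + 1) + κ / (3 * g + 1) * Real.log (rad (Y * T * (Y + T))) =
        (A + κ * Real.log (rad (Y * T * (Y + T)))) / (3 * g + 1) := by ring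
    rw [e, le_div_iff₀ hg0]
    linarith
  subst hab
  rcases le_total b a with h1 | h1
  · exact main a b ha hb hcop h1
  · have := main b a hb ha hcop.symm h1
    rwa [add_comm b a, mul_comm b a] at this

/-- abc implies the inequality for the trinomials -/
theorem trin_of_abc (K : Type) [Field K] [NumberField K] {g : ℕ} (hg : 2 ≤ g) {l : ℝ}
    (hl : 0 ≤ l) (h : AbcExp l) : Ineq K g (IsTrin K g) ((4 * g + 2) * l) := by
  classical
  obtain ⟨C, hC⟩ := h
  set d := Module.finrank ℚ K with hd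
  have hd1 : 0 < d := Module.finrank_pos
  have hdR : (0 : ℝ) < d := by exact_mod_cast hd1
  set P : ℕ := max (discr K).natAbs (2 * (g + 1)) with hP
  set D₀ : ℕ := 2 ^ (4 * g) * ((g + 1) ^ (g + 1 + (g + 1)) * 16 ^ (g + 1)) with hD₀
  have hD0 : (0 : ℝ) < D₀ := by
    have : 0 < D₀ := by rw [hD₀]; positivity
    exact_mod_cast this
  refine ⟨Real.exp (d * (Real.log D₀ + (4 * g + 2) * (Real.log (|C| + 1) +
    l * Real.log P.factorial))), ?_⟩
  rintro F hF ⟨Y, T, hY, hT, hcop, rfl⟩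
  have h1 := trin_up (K := K) (g := g) hY hT
  rw [← hd] at h1
  have h4 := one_le_badNorm hF
  have hn0 : Y * T * (Y + T) ≠ 0 := by positivity
  have h2 := bad_lower hF (radP_sq P (Y * T * (Y + T)))
    (fun p hp hpd => lt_of_le_of_lt (le_max_left _ _) (dvd_radP hp hpd).2) (fun v hv => by
      obtain ⟨p, hp, hpd, hpv⟩ := exists_prime_of_val v (radP_sq P (Y * T * (Y + T))).ne_zero hv
      obtain ⟨hpn, hpP⟩ := dvd_radP hp hpd
      have hpg : 2 * (g + 1) < p := lt_of_le_of_lt (le_max_right _ _) hpP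
      intro h0
      have h5 := place_ineq (K := K) hg hY hT one_pos hcop v (Or.inl (by simp))
      rw [← trin_eq, h0] at h5
      -- `v (C0) = 1`
      have hC0 : v.valuation K (C0 g : K) = 1 := by
        by_contra hne
        have hlt := lt_of_le_of_ne (val_nat_le_one v (C0 g)) hne
        obtain ⟨q, hq, hqd, hqv⟩ := exists_prime_of_val v (by unfold C0; positivity) hlt
        have hqg : q ≤ 2 * (g + 1) := by
          unfold C0 at hqd
          rcases (Nat.Prime.dvd_mul hq).mp hqd with h6 | h6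
          · have := Nat.le_of_dvd (by norm_num) (hq.dvd_of_dvd_pow h6)
            omega
          · rcases (Nat.Prime.dvd_mul hq).mp (hq.dvd_of_dvd_pow h6) with h7 | h7
            · have : q ∣ 2 := hq.dvd_of_dvd_pow (show q ∣ 2 ^ 2 from h7)
              have := Nat.le_of_dvd (by norm_num) this
              omega
            · have := Nat.le_of_dvd (by omega) (hq.dvd_of_dvd_pow h7)
              omega
        have hpq : Nat.Coprime p q := (Nat.coprime_primes hp hq).mpr (by omega)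
        rcases val_one_or (K := K) hpq v with h6 | h6
        · exact absurd h6 hpv.ne
        · exact absurd h6 hqv.ne
      rw [hC0, mul_one] at h5
      have h6 : v.valuation K ((DD g Y T 1 : ℕ) : K) < 1 := by
        refine val_lt_of_dvd v hpv ?_
        unfold DD
        rcases (Nat.Prime.dvd_mul hp).mp hpn with h7 | h7
        · rcases (Nat.Prime.dvd_mul hp).mp h7 with h8 | h8
          · exact Dvd.dvd.mul_right (Dvd.dvd.mul_left (dvd_pow h8 (by omega)) _) _
          · exact Dvd.dvd.mul_left (dvd_pow ((h8.mul_right _).mul_left _) (by omega)) _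
        · exact Dvd.dvd.mul_left (dvd_pow ((h7.mul_left _).mul_left _) (by omega)) _
      have h7 : exp (-((0 : ℕ) : ℤ)) = (1 : ℤᵐ⁰) := by simp
      rw [h7] at h5
      exact absurd h6 (not_lt.mpr h5))
  rw [← hd] at h2
  set Δ := discNorm g (trin K g Y T) with hΔ
  set M := badNorm g (trin K g Y T) with hM
  set w := radP P (Y * T * (Y + T)) with hw
  have hw0 : (0 : ℝ) < w := by
    have : 0 < w := Nat.pos_of_ne_zero (radP_sq P (Y * T * (Y + T))).ne_zero
    exact_mod_cast this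
  have hM0 : (0 : ℝ) < M := by exact_mod_cast h4
  have hZ0 : (0 : ℝ) < ((Y + T : ℕ) : ℝ) := by exact_mod_cast (by omega : 0 < Y + T)
  -- the size of the discriminant
  have h3 : 2 ^ (4 * g) * DD g Y T 1 ≤ D₀ * (Y + T) ^ (4 * g + 2) := by
    unfold DD
    have e1 : Y ^ (2 * g) ≤ (Y + T) ^ (2 * g) := Nat.pow_le_pow_left (by omega) _
    have e2 : (T * (Y + T)) ^ (g + 1) ≤ (Y + T) ^ (2 * g + 2) := by
      calc (T * (Y + T)) ^ (g + 1) ≤ ((Y + T) * (Y + T)) ^ (g + 1) :=
            Nat.pow_le_pow_left (Nat.mul_le_mul_right _ (Nat.le_add_left _ _)) _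
        _ = (Y + T) ^ (2 * g + 2) := by rw [← sq, ← pow_mul]; congr 1
    calc 2 ^ (4 * g) * ((g + 1) ^ (g + 1 + (g + 1)) * 1 ^ kap g * Y ^ (2 * g) *
          (16 * (T * (Y + T))) ^ (g + 1)) =
          D₀ * (Y ^ (2 * g) * (T * (Y + T)) ^ (g + 1)) := by
          rw [hD₀, one_pow, mul_pow 16]; ring
      _ ≤ D₀ * ((Y + T) ^ (2 * g) * (Y + T) ^ (2 * g + 2)) := by gcongr
      _ = _ := by rw [← pow_add]; congr 2; ring
  have h3R : (Δ : ℝ) ≤ ((D₀ : ℝ) * ((Y + T : ℕ) : ℝ) ^ (4 * g + 2)) ^ d := by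
    have : Δ ≤ (D₀ * (Y + T) ^ (4 * g + 2)) ^ d := h1.trans (Nat.pow_le_pow_left h3 _)
    exact_mod_cast this
  -- abc
  have h5 : ((Y + T : ℕ) : ℝ) ≤ (|C| + 1) * ((P.factorial : ℝ) * w) ^ l := by
    have e1 := hC Y T (Y + T) hY hT rfl hcop
    have e2 : (rad (Y * T * (Y + T)) : ℝ) ≤ (P.factorial : ℝ) * w := by
      exact_mod_cast rad_le P (Y * T * (Y + T))
    have hrR : (0 : ℝ) < rad (Y * T * (Y + T)) := by exact_mod_cast rad_pos _
    calc ((Y + T : ℕ) : ℝ) ≤ C * (rad (Y * T * (Y + T)) : ℝ) ^ l := e1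
      _ ≤ (|C| + 1) * (rad (Y * T * (Y + T)) : ℝ) ^ l := by
          have := le_abs_self C
          gcongr
          linarith
      _ ≤ _ := by gcongr
  have hPf : (0 : ℝ) < P.factorial := by exact_mod_cast Nat.factorial_pos P
  have l5 := Real.log_le_log hZ0 h5
  rw [Real.log_mul (by positivity) (by positivity), Real.log_rpow (by positivity),
    Real.log_mul hPf.ne' hw0.ne'] at l5
  have h2R : (w : ℝ) ^ d ≤ M := by exact_mod_cast h2
  have l2 := Real.log_le_log (by positivity) h2R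
  rw [Real.log_pow] at l2
  have hgoal : Real.log (((D₀ : ℝ) * ((Y + T : ℕ) : ℝ) ^ (4 * g + 2)) ^ d) ≤
      Real.log (Real.exp (d * (Real.log D₀ + (4 * g + 2) * (Real.log (|C| + 1) +
        l * Real.log P.factorial))) * (M : ℝ) ^ ((4 * g + 2) * l)) := by
    rw [Real.log_pow, Real.log_mul hD0.ne' (by positivity), Real.log_pow,
      Real.log_mul (Real.exp_pos _).ne' (by positivity), Real.log_exp, Real.log_rpow hM0]
    have e1 : ((4 * g + 2 : ℕ) : ℝ) = 4 * g + 2 := by push_cast; ring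
    rw [e1]
    have e2 : (4 * (g : ℝ) + 2) * l * (d * Real.log w) ≤ (4 * g + 2) * l * Real.log M := by
      gcongr
    have e3 : (d : ℝ) * ((4 * g + 2) * Real.log ((Y + T : ℕ) : ℝ)) ≤
        d * ((4 * g + 2) * (Real.log (|C| + 1) + l * (Real.log P.factorial + Real.log w))) := by
      gcongr
    linarith
  refine h3R.trans ((Real.log_le_log_iff (by positivity) (by positivity)).mp hgoal)

end Pool.Agent.Q272.HA
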